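import Pool.Agent.Helper49.KR.St

/-! Module DSM of project KR (MP_c973ff_an): dimensions in a window. -/

set_option autoImplicit false

namespace Pool.Agent.Helper2.KR

open Finset Filter Topology Module
open Pool.Agent.Helper49.KX Pool.Agent.Helper49.KR

theorem dsm_im {r : ℕ} (c : Matrix (Fin r) (Fin r) ℂ) (S : Finset (Fin r)) (w : Fin r → ℂ)
    (hw : w ∈ Zs r S) : Matrix.mulVec c w ∈ im c S :=
  Submodule.mem_map.2 ⟨w, hw, Matrix.mulVecLin_apply c w⟩

theorem dsm_one (θ : ℝ) (r : ℕ) (g : FS X0) (s : ℝ) : 1 - cw θ r g s = cw θ r (un - g) s := by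
  ext k i
  rw [Matrix.sub_apply]
  unfold cw
  rw [Finsupp.sub_apply, ContinuousMap.sub_apply]
  congr 1
  unfold un
  rw [Matrix.one_apply, Finsupp.single_apply]
  by_cases h : k = i
  · rw [if_pos h, if_pos (by rw [h, sub_self])]
    rfl
  · rw [if_neg h, if_neg (fun h1 => h (Fin.ext (by omega)))]
    rfl

theorem dsm_ker (r : ℕ) (S : Finset (Fin r)) : r ≤ finrank ℂ (Zs r S) + S.card := by
  have h1 : LinearMap.ker (LinearMap.funLeft ℂ ℂ (Subtype.val : S → Fin r)) = Zs r S := by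
    ext w
    rw [LinearMap.mem_ker]
    constructor
    · intro h i hi
      exact congrFun h ⟨i, hi⟩
    · intro h
      funext i
      exact h i.1 i.2
  have h2 := LinearMap.finrank_range_add_finrank_ker
    (LinearMap.funLeft ℂ ℂ (Subtype.val : S → Fin r))
  rw [h1, finrank_fin_fun] at h2
  have h3 := Submodule.finrank_le
    (LinearMap.range (LinearMap.funLeft ℂ ℂ (Subtype.val : S → Fin r)))
  rw [finrank_fintype_fun_eq_card, Fintype.card_coe] at h3
  omega

theorem dsm_SB (r M N : ℕ) (h : N ≤ M) : Zs r (SB r M) ≤ Zs r (SB r N) := by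
  intro w hw i hi
  refine hw i ?_
  unfold SB at hi ⊢
  rw [mem_filter] at hi ⊢
  refine ⟨mem_univ _, ?_⟩
  omega

theorem hDSM : StDsm := by
  classical
  intro hCmm hEvm hAlg hDeg θ g s0 V N r s hF hg hs
  obtain ⟨A, iR, iA, j, U, hcov, hbij⟩ := hAlg hEvm X0 (rot θ)
  obtain ⟨-, hadd, hsub, hun, hmul⟩ := hEvm X0 (rot θ) A j U hcov
  have hy1 : yy θ g s0 = tw (rot θ) g (tw (rot θ) (un - g) s0) := by
    apply hbij.1
    unfold yy
    rw [hmul, hmul, hmul, hmul, mul_assoc]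
  have hy2 : yy θ g s0 = tw (rot θ) (un - g) (tw (rot θ) g s0) := by
    apply hbij.1
    unfold yy
    rw [hmul, hmul, hmul, hmul, hsub, hun, ← mul_assoc]
    congr 1
    rw [mul_sub, sub_mul, mul_one, one_mul]
  have hd1 : Deg (un - g) N := (hDeg θ g s0 N N hg hs).2
  have hd2 : Deg (tw (rot θ) (un - g) s0) (N + N) := (hDeg θ _ _ N N hd1 hs).1
  have hd3 : Deg (tw (rot θ) g s0) (N + N) := (hDeg θ _ _ N N hg hs).1
  have h4 : 4 * N = 2 * N + (N + N) := by ring
  have hone := dsm_one θ r g s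
  have hcl1 : im (cw θ r (yy θ g s0) s) (SB r (4 * N)) ≤ im (cw θ r g s) (SB r N) := by
    intro v hv
    obtain ⟨w, hw, rfl⟩ := Submodule.mem_map.1 hv
    rw [h4] at hw
    obtain ⟨h5, h6⟩ := hCmm θ r g _ (2 * N) (N + N) s hd2 w hw
    rw [Matrix.mulVecLin_apply, hy1, h6]
    exact dsm_im _ _ _ (dsm_SB r (2 * N) N (by omega) h5)
  have hcl2 : im (cw θ r (yy θ g s0) s) (SB r (4 * N)) ≤ im (1 - cw θ r g s) (SB r N) := by
    intro v hv
    obtain ⟨w, hw, rfl⟩ := Submodule.mem_map.1 hv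
    rw [h4] at hw
    obtain ⟨h5, h6⟩ := hCmm θ r (un - g) _ (2 * N) (N + N) s hd3 w hw
    rw [Matrix.mulVecLin_apply, hy2, h6, hone]
    exact dsm_im _ _ _ (dsm_SB r (2 * N) N (by omega) h5)
  refine ⟨hcl1, hcl2, ?_, ?_, hone⟩
  · obtain ⟨W, hW⟩ : ∃ W : Finset (Fin r), W = vis (rot θ) r (4 * N) V (s : X0) := ⟨_, rfl⟩
    rw [← hW]
    have hWm : ∀ τ ∈ W, τ ∉ SB r (4 * N) ∧ ((s + ((τ : ℕ) : ℝ) * θ : ℝ) : X0) ∈ V := by
      intro τ hτ
      rw [hW] at hτ
      unfold vis at hτ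
      obtain ⟨-, h1, h2⟩ := mem_filter.1 hτ
      refine ⟨h1, ?_⟩
      rw [rot_zpow] at h2
      rw [AddCircle.coe_add]
      exact_mod_cast h2
    have htop : (im (cw θ r (yy θ g s0) s) (SB r (4 * N))).map
        (LinearMap.funLeft ℂ ℂ (Subtype.val : W → Fin r)) = ⊤ := by
      rw [eq_top_iff, ← (Pi.basisFun ℂ W).span_eq, Submodule.span_le]
      rintro v ⟨τ, rfl⟩
      rw [Pi.basisFun_apply]
      have hmem : Matrix.mulVec (cw θ r (yy θ g s0) s) (Pi.single τ.1 1) ∈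
          im (cw θ r (yy θ g s0) s) (SB r (4 * N)) := by
        refine dsm_im _ _ _ fun i hi => ?_
        rw [Pi.single_apply, if_neg]
        rintro rfl
        exact (hWm τ.1 τ.2).1 hi
      refine Submodule.mem_map.2 ⟨_, hmem, ?_⟩
      funext τ'
      rw [LinearMap.funLeft_apply, Matrix.mulVec_single_one]
      change cw θ r (yy θ g s0) s τ'.1 τ.1 = (Pi.single τ 1 : W → ℂ) τ'
      unfold cw
      have hV' := (hWm τ'.1 τ'.2).2
      by_cases hττ : τ' = τ
      · rw [hττ, Pi.single_eq_same, sub_self]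
        exact hF.one _ (hWm τ.1 τ.2).2
      · rw [Pi.single_eq_of_ne hττ]
        have hne : (((τ'.1 : Fin r) : ℕ) : ℤ) - (((τ.1 : Fin r) : ℕ) : ℤ) ≠ 0 := by
          intro h
          exact hττ (Subtype.ext (Fin.ext (by omega)))
        refine hF.zero _ hne _ hV' ?_
        rw [rot_zpow, ← AddCircle.coe_add]
        have e : s + (((τ'.1 : Fin r) : ℕ) : ℝ) * θ +
            ((-((((τ'.1 : Fin r) : ℕ) : ℤ) - (((τ.1 : Fin r) : ℕ) : ℤ)) : ℤ) : ℝ) * θ =
            s + (((τ.1 : Fin r) : ℕ) : ℝ) * θ := by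
          push_cast
          ring
        rw [e]
        exact (hWm τ.1 τ.2).2
    have h1 := Submodule.finrank_map_le (LinearMap.funLeft ℂ ℂ (Subtype.val : W → Fin r))
      (im (cw θ r (yy θ g s0) s) (SB r (4 * N)))
    rw [htop, finrank_top, finrank_fintype_fun_eq_card, Fintype.card_coe] at h1
    exact h1
  · have h1 : Zs r (SB r N) ≤ im (cw θ r g s) (SB r N) ⊔ im (1 - cw θ r g s) (SB r N) := by
      intro w hw
      have e : w = Matrix.mulVec (cw θ r g s) w + Matrix.mulVec (1 - cw θ r g s) w := by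
        rw [← Matrix.add_mulVec, add_sub_cancel, Matrix.one_mulVec]
      rw [e]
      exact Submodule.add_mem_sup (dsm_im _ _ _ hw) (dsm_im _ _ _ hw)
    have h2 := Submodule.finrank_mono h1
    have h3 := dsm_ker r (SB r N)
    omega

end Pool.Agent.Helper2.KR
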