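import Pool.Agent.Helper49.KR.St

/-! Module MNM of project KR (MP_c973ff_an): orbits of irrational rotations are dense. -/

set_option autoImplicit false

namespace Pool.Agent.Helper2.KR

open Finset Filter Topology Module
open Pool.Agent.Helper49.KX Pool.Agent.Helper49.KR

theorem hMNM : StMnm := by
  intro θ hθ x
  have h1 : DenseRange (fun n : ℤ => n • ((θ : ℝ) : AddCircle (1 : ℝ))) :=
    AddCircle.denseRange_zsmul_coe_iff.2 (by rwa [div_one])
  have h2 : (fun n : ℤ => (rot θ ^ n : X0 ≃ₜ X0) x) =
      (Homeomorph.addLeft x) ∘ (fun n : ℤ => n • ((θ : ℝ) : AddCircle (1 : ℝ))) := by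
    funext n
    rw [rot_zpow, ← zsmul_eq_mul, AddCircle.coe_zsmul]
    rfl
  rw [h2]
  exact (Homeomorph.surjective _).denseRange.comp h1 (Homeomorph.continuous _)

end Pool.Agent.Helper2.KR
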